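import Pool.Agent.Helper54.DT.All

open Pool.Agent.Helper54.ETR in
theorem Pool.Agent.Results.MP_47b99f_lc.DegreeProfiles.result :
    (∀ k a : ℕ, InNP (PROF k a 0 0)) ∧
    (PolyRed SSR (PROF 0 0 1 0) ∧ NPRed (PROF 0 0 1 0) SDF) ∧
    ∀ a b c : ℕ∞, ¬ (b = 0 ∧ c = 0 ∧ a ≠ ⊤) → ¬ (a = 0 ∧ b = 1 ∧ c = 0) →
      PolyRed ETR (PROF 0 a b c) ∧ PolyRed (PROF 0 a b c) ETR ∧
      ((b ≠ 0 ∨ c ≠ 0) → PolyRed ETR (PROF2 a b c)) :=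
  Pool.Agent.Helper54.DT.All.a_MAIN3
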