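import Pool.Agent.Helper54.DP.All
import Pool.Agent.Helper54.DP.Res

open Pool.Agent.Helper54.ETR in
theorem Pool.Agent.Results.MP_47b99f_lc.Dichotomy.result :
    (∀ Γ : List Form, (∀ ρ ∈ Γ, SemiLin ρ) → InNP (SAT Γ)) ∧
    (∀ Γ : List Form, (∃ ρ ∈ Γ, ¬ SemiLin ρ) →
      PolyRed ETR (SAT Γ) ∧ PolyRed (SAT Γ) ETR ∧ (InNP (SAT Γ) ↔ InNP ETR)) ∧
    ∀ (ρ : Form) (P N : List Form), ¬ SemiLin ρ → ρ ∈ P → (ρ ∈ N ∨ ρ.Algebraic) →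
      PolyRed ETR (CSP P N) :=
  Pool.Agent.Helper54.DP.st_RES Pool.Agent.Helper54.DP.All.p_MAIN2
    Pool.Agent.Helper54.DP.All.a_OKF Pool.Agent.Helper54.DP.All.a_TRP
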