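import Pool.Agent.Helper54.Rg.Main

open Pool.Agent.Helper54.ETR in
theorem Pool.Agent.Results.MP_47b99f_lc.RegularSystems.result :
    ∃ f : List Bool → List Bool,
      Nonempty (Turing.TM2ComputableInPolyTime (fun l : List Bool => l) (fun l => l) f) ∧
      ∀ u, ∃ (t : Term) (S : List Term), Regular (t :: S) ∧ (∀ s ∈ t :: S, Basic s) ∧
        f u = (conj t S).code ∧
        ((∃ φ : Form, u = φ.code ∧ ∃ x : ℕ → ℝ, φ.Holds x) ↔
          ∃ x : ℕ → ℝ, ∀ s ∈ t :: S, s.eval x = 0) :=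
  etr_reduces
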