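import Pool.Agent.Helper54.Sm.Main

open Pool.Agent.Helper54.ETR in
theorem Pool.Agent.Results.MP_47b99f_lc.SmoothedNP.result :
    ∃ (V : List Bool × List Bool → Bool) (p : Polynomial ℕ),
      Nonempty (Turing.TM2ComputableInPolyTime encPair Computability.encodeBool V) ∧
      (∀ u w, V (u, w) = true → ∃ φ : Form, u = φ.code ∧ ∃ x : ℕ → ℝ, φ.Holds x) ∧
      ∀ (φ : Form) (n q e K : ℕ), φ.InVars n →
        e + (q + 5 * φ.toks.length + n + 10) * (n + φ.toks.length) ≤ K →
        2 ^ e * {a : Fin φ.atoms.length × Fin (n + 1) → Fin (2 ^ K) |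
          (∃ x : ℕ → ℝ, (∀ i < n, |x i| ≤ 1) ∧ (φ.smooth n q K a).Holds x) ∧
          ¬ ∃ w : List Bool, w.length ≤ p.eval (φ.smooth n q K a).code.length ∧
            V ((φ.smooth n q K a).code, w) = true}.ncard ≤
        (2 ^ K) ^ (φ.atoms.length * (n + 1)) :=
  smoothed_NP
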